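import Pool.Agent.RP97.FourFree

/-!
Rainbow paths with `k - 1` edges in graphs without 4-cycles, for `k ≥ 10 ^ 100`.
-/

namespace Pool.Agent.Results.MP_f85801_co.FourCycleFree

/-- Every `k`-regular graph without 4-cycles, properly edge-coloured with `k` colours, has a
rainbow path with `k - 1` edges if `k ≥ 10 ^ 100`. -/
theorem result {V : Type*} [Fintype V] [Nonempty V] (G : SimpleGraph V) [DecidableRel G.Adj]
    (k : ℕ) (hk : 10 ^ 100 ≤ k) (hreg : G.IsRegularOfDegree k) (c : Sym2 V → Fin k)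
    (hc : ∀ u v w, G.Adj u v → G.Adj u w → c s(u, v) = c s(u, w) → v = w)
    (hfour : ∀ (u : V) (p : G.Walk u u), p.IsCycle → p.length ≠ 4) :
    ∃ (u v : V) (p : G.Walk u v), p.IsPath ∧ p.length = k - 1 ∧ (p.edges.map c).Nodup := by
  classical
  obtain ⟨x, l, hl, hv⟩ := RP97.exists_path_four_free (RP97.sysOf G c hreg hc)
    (RP97.c4_of_graph G c hreg hc hfour) hk
  exact RP97.exists_walk G c hreg hc hl hv

end Pool.Agent.Results.MP_f85801_co.FourCycleFree
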