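import Pool.Agent.RP97.Graph

/-!
A first moment criterion for long rainbow paths in properly `k`-edge-coloured `k`-regular graphs.
-/

namespace Pool.Agent.Results.MP_f85801_co.LocallySparse

open Finset Nat

/-- If every two vertices are joined by few rainbow walks of length `r`, there is a rainbow path
of length `k - h`. -/
theorem result {V : Type*} [Fintype V] [Nonempty V] (G : SimpleGraph V) [DecidableRel G.Adj]
    (k r h : ℕ) (hreg : G.IsRegularOfDegree k) (c : Sym2 V → Fin k)
    (hc : ∀ u v w, G.Adj u v → G.Adj u w → c s(u, v) = c s(u, w) → v = w)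
    (hr : 3 ≤ r) (hh : h ≤ k)
    (hshort : ∀ (u : V) (p : G.Walk u u), (p.edges.map c).Nodup → 1 ≤ p.length → r ≤ p.length)
    (hfew : ∀ u v : V, {p : G.Walk u v | p.length = r ∧ (p.edges.map c).Nodup}.ncard * h ! ≤
      (r - 1) * (r - 2) * (r + h - 2)!) :
    ∃ (u v : V) (p : G.Walk u v), p.IsPath ∧ p.length = k - h ∧ (p.edges.map c).Nodup := by
  classical
  obtain ⟨⟨u₀, v₀⟩, -, hmax⟩ := Finset.exists_max_image (univ : Finset (V × V))
    (fun q => {p : G.Walk q.1 q.2 | p.length = r ∧ (p.edges.map c).Nodup}.ncard)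
    ⟨(Classical.arbitrary V, Classical.arbitrary V), mem_univ _⟩
  obtain ⟨x, l, hl, hv⟩ := RP97.exists_path (RP97.sysOf G c hreg hc) (r := r)
    (T := {p : G.Walk u₀ v₀ | p.length = r ∧ (p.edges.map c).Nodup}.ncard) (h := h) hr hh
    (fun y z => (RP97.lists_le_walks G c hreg hc r y z).trans (hmax (z, y) (mem_univ _)))
    (fun ℓ h1 h2 => RP97.closed_empty G c hreg hc ℓ (fun u p hp hn => by
      have := hshort u p hn (by omega)
      omega))
    (hfew u₀ v₀)
  exact RP97.exists_walk G c hreg hc hl hv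

end Pool.Agent.Results.MP_f85801_co.LocallySparse
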