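import Pool.Agent.RP61.Fin2
import Pool.Agent.RP61.Num3
import Pool.Agent.RP97.Graph

/-!
Rainbow paths with `k - 1` edges in regular graphs in which rainbow walks spread, for all
large `k`.
-/

namespace Pool.Agent.Results.MP_f85801_co.SpreadingWalks

/-- For all large `k` and all `ℓ ≥ 1` with `ℓ ^ 14 ≤ k`: every `k`-regular graph, properly
edge-coloured with `k` colours, in which any two vertices are joined by at most
`k ^ (ℓ - 1) / (ℓ ^ 12 (log k) ^ 35)` rainbow walks of length `ℓ`, has a rainbow path with `k - 1`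
edges. -/
theorem result : ∃ k₀ : ℕ, ∀ k ≥ k₀, ∀ ℓ : ℕ, 1 ≤ ℓ → ℓ ^ 14 ≤ k →
    ∀ {V : Type*} [Fintype V] [Nonempty V]
    (G : SimpleGraph V) [DecidableRel G.Adj], G.IsRegularOfDegree k → ∀ c : Sym2 V → Fin k,
    (∀ u v w, G.Adj u v → G.Adj u w → c s(u, v) = c s(u, w) → v = w) →
    (∀ u v, ({p : G.Walk u v | p.length = ℓ ∧ (p.edges.map c).Nodup}.ncard : ℝ) ≤
      (k : ℝ) ^ (ℓ - 1) / ((ℓ : ℝ) ^ 12 * (Real.log k) ^ 35)) →
    ∃ (u v : V) (p : G.Walk u v), p.IsPath ∧ p.length = k - 1 ∧ (p.edges.map c).Nodup := by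
  obtain ⟨k₀, hk₀⟩ := RP60.exists_par3
  refine ⟨max k₀ 3, fun k hk ℓ hℓ1 hℓ V _ _ G _ hreg c hc h3 => ?_⟩
  classical
  have hk1 : k₀ ≤ k := le_trans (le_max_left _ _) hk
  have hk3 : 3 ≤ k := le_trans (le_max_right _ _) hk
  have hk3' : (3 : ℝ) ≤ k := by exact_mod_cast hk3
  have hlog : 1 ≤ Real.log k := by
    rw [Real.le_log_iff_exp_le (by linarith)]
    linarith [Real.exp_one_lt_d9]
  obtain ⟨n, b, B, q, t, Δ, hΔ, P⟩ := hk₀ k hk1 ℓ hℓ1 hℓ
  have hS : RP60.CodL (RP97.sysOf G c hreg hc) ℓ Δ := by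
    intro y z
    have h4 : (((RP97.nd (∅ : Finset (Fin k)) ℓ).filter
        (fun p => (RP97.sysOf G c hreg hc).ep p y = z)).card : ℝ) ≤
        ({p : G.Walk z y | p.length = ℓ ∧ (p.edges.map c).Nodup}.ncard : ℝ) := by
      exact_mod_cast RP97.lists_le_walks G c hreg hc ℓ y z
    refine h4.trans ((h3 z y).trans ?_)
    have e : (k : ℝ) ^ (ℓ - 1) / ((ℓ : ℝ) ^ 12 * (Real.log k) ^ 35) =
        1 / ((ℓ : ℝ) ^ 12 * (Real.log k) ^ 35) / k * (k : ℝ) ^ ℓ := by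
      obtain ⟨m, rfl⟩ : ∃ m, ℓ = m + 1 := ⟨ℓ - 1, by omega⟩
      rw [Nat.add_sub_cancel, pow_succ (k : ℝ) m]
      field_simp
    rw [e]
    gcongr
  obtain ⟨x, l, hl, hv⟩ := RP60.exists_path2 (RP97.sysOf G c hreg hc) P hS
  exact RP97.exists_walk G c hreg hc hl hv

end Pool.Agent.Results.MP_f85801_co.SpreadingWalks
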